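import Pool.Agent.U442.Sel.Exi

/-!
# `ℓ`-Galois special points: explicit congruence classes of hyperelliptic Jacobians and all abelian
# varieties with semistable reduction at one place

Let `K` be a number field, `n ≥ 7` an odd number, and `f` a monic polynomial of degree `n` over the ring
of integers of `K`; `J` is the Jacobian of the curve `y ^ 2 = f (x)`, of dimension `(n - 1) / 2`. The
group `J (F)`, for an algebraically closed field `F`, is the class group of the ring `F[x, y]` of the
affine curve (the curve has one point at infinity), and `V_2 (J)` is its rational 2-adic Tate module.

We consider explicit congruence conditions for `f`: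

* `FullReductions`: modulo three prime ideals `p 0`, `p 1`, `p 2` of `K` the polynomial `f` is irreducible,
  has an irreducible factor of degree `n - 1`, and is the product of an irreducible quadratic polynomial
  and of `n - 2` different linear factors (so the Galois group is the symmetric group);
* `CubicAt v f`: `f ≡ (X ^ 3 - π) g` modulo `v ^ 2`, with `π` in `v`, not in `v ^ 2`, and `g(0)` not
  in `v`.

Let `L` be a finite extension of `K`, and `t` any integral 2-adic representation of the absolute Galois
group of `L`, of any rank `d`, in the form of its matrices over the 2-adic integers; for instance the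
cohomology `H^i(Z, ℤ_2)` (modulo torsion) of any smooth projective variety `Z` over `L`. Let `E` be a
finite normal extension of `K` which contains `L` and over which `t` is trivial modulo two.

**Theorem.** (1) Let `f` satisfy these conditions, and let the ramification index of one (then of all)
of the prime ideals `P` of `E` over `v` be prime to three. Then for ALL pure motives `M` in the tensor
category generated by `Z` (`Generated`: obtained from the 2-adic realization of `Z` and characters with
values in `ℤ_2ˣ` by tensor products, direct sums, duals, subrepresentations and quotients; for instance
all direct summands of the cohomology of all powers `Z ^ b`) and at EVERY prime number `ℓ` (`EveryPrime`):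
all Tate classes on all powers `J ^ a` with values in the `ℓ`-adic realization of `M(c)` are zero in odd
degrees, and in even degrees they are linear combinations of products of Tate classes of degree two
on `J ^ a` and Tate classes of `M` (`ProductsWith`).

(2) For every place `v` and all different prime ideals `p 0`, `p 1`, `p 2` other than `v`, the last one of
norm at least `n`, there is a residue class of monic polynomials of degree `n` modulo
`p 0 ⊓ p 1 ⊓ p 2 ⊓ v ^ 2` in which ALL polynomials satisfy the conditions.

The condition on the ramification holds, for `L = K` and `E` the field cut out by the action modulo 2, if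
`v` does not divide 2 and `Z` has good reduction at `v` (no ramification), or semistable reduction at `v`
(Grothendieck: the inertia group acts unipotently, so modulo 2 by a 2-group), and if the inertia group acts
on `H^i(Z, 𝔽_2)` by a group of order prime to three. So for the polynomials `f` in explicit residue
classes, WITHOUT ANY EXCEPTIONAL SET, the conclusion is true for ALL varieties `Z` with semistable
reduction at ONE place `v`, with arbitrary reduction at all other places, of any dimension and with any
Betti numbers. One can take products of several `J` with conditions at different places `v`, one after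
the other: `Z` may contain the Jacobians `J'` of such curves with semistable reduction at `v`.

The meaning for the question. The endomorphism ring of `J` is `ℤ` (Zarhin), so by the theorem of Faltings
the Tate classes of degree two on the powers of `J` are combinations of polarization classes. Let `B` be
ANY abelian variety over `L` as above, for instance with semistable reduction at `v`. All Tate classes
on all `J ^ a × B ^ b` are combinations of products of these classes and Tate classes on `B ^ b`, and
the connected `ℓ`-adic monodromy group of `J × B` is the full fibre product of `GSp` and the group of `B`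
over the multiplier characters, since reductive groups which contain the homotheties are determined by
their invariants. So it is the same as for the family of the abelian varieties `X ^ m × B ^ b` with all
principally polarized `X` of the dimension of `J`, and the points `x` with `A_x = J ^ m × B ^ b`
are not `ℓ`-Galois special, for every prime `ℓ`. The Mumford-Tate conjecture is not assumed for `B`. (If
it is true for `B` then it follows for `A_x`; for abelian varieties this implication is also a theorem
of Commelin.) These translations are not formalized.

What is new. In the other hand-ins of this kind (`MP_c1bb77_ag.GoodReductionOutsideS`, starting results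
on 100% of the tuples) there is an exceptional set of polynomials, which depends on the places
of bad reduction; in `MP_09799c_ag.ExplicitTrinomials` the polynomials are `x ^ n - x - 1`, whose inertia
groups are generated by transpositions, so semistable reduction is not sufficient. Proof: the
condition at `v` gives a root of `f` whose third power has the valuation of `π`, so the ramification
indices at `v` of the fields which contain the roots of `f` are divisible by three, and the roots are
not in `E`; the Galois group over `E` is a normal subgroup of the symmetric group, so it contains all
even permutations, and some element which is trivial modulo two moves a root.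
-/

set_option autoImplicit false

namespace Pool.Agent.Results.MP_09799c_ag.ExplicitCongruences

open Polynomial NumberField IsDedekindDomain
open Pool.Agent.U442.Htj (Generated)
open Pool.Agent.U442.Htj.EP (AbsoluteGaloisGroup matRep EveryPrime)
open Pool.Agent.U442.Sel (FullReductions CubicAt)

/-- the matrices over `ℚ_2` -/
noncomputable def toQ {G : Type} [Group G] {d : ℕ} (t : G →* Matrix (Fin d) (Fin d) ℤ_[2]) :
    G →* Matrix (Fin d) (Fin d) ℚ_[2] :=
  ((algebraMap ℤ_[2] ℚ_[2]).mapMatrix : Matrix (Fin d) (Fin d) ℤ_[2] →+* _).toMonoidHom.comp t

/-- The matrix of `s` is congruent to one modulo two. -/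
def TrivialModTwo {G : Type} [Group G] {d : ℕ} (t : G →* Matrix (Fin d) (Fin d) ℤ_[2]) (s : G) :
    Prop :=
  (t s).map (PadicInt.toZMod (p := 2)) = 1

/-- **All motives in the tensor category generated by `Z`, at every prime number.** -/
def AllMotives {L : Type} [Field L] [NumberField L] {ι : Type} (f : ι → L[X]) {d : ℕ}
    (t : AbsoluteGaloisGroup L →* Matrix (Fin d) (Fin d) ℤ_[2]) : Prop :=
  ∀ (m : ℕ) (ν : AbsoluteGaloisGroup L →* Matrix (Fin m) (Fin m) ℚ_[2]), Continuous ν →
    Generated (matRep (toQ t)) (Fin m → ℚ_[2]) (matRep ν) → EveryPrime f ν

/-- The representation `t` over `L` is trivial modulo two over a finite normal extension `E` of `K` which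
contains `L`, and in which some prime ideal over `v` has a ramification index prime to three. -/
def AllowedAt {K : Type} [Field K] [NumberField K] (v : HeightOneSpectrum (𝓞 K)) {L : Type} [Field L]
    [NumberField L] [Algebra K L] {d : ℕ}
    (t : AbsoluteGaloisGroup L →* Matrix (Fin d) (Fin d) ℤ_[2]) : Prop :=
  ∃ (E : IntermediateField K (AlgebraicClosure L)) (_ : NumberField E)
    (P : HeightOneSpectrum (𝓞 E)), Normal K E ∧
    (∀ x : L, algebraMap L (AlgebraicClosure L) x ∈ E) ∧
    (∀ s : AbsoluteGaloisGroup L, (∀ x ∈ E, s x = x) → TrivialModTwo t s) ∧
    P.asIdeal.LiesOver v.asIdeal ∧ ¬ 3 ∣ v.asIdeal.ramificationIdx' P.asIdeal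

/-- **Explicit congruence classes of hyperelliptic Jacobians and all varieties with semistable reduction
at one place.** -/
theorem result {K : Type} [Field K] [NumberField K] {n : ℕ} (h7 : 7 ≤ n) (ho : Odd n)
    (v : HeightOneSpectrum (𝓞 K)) (p : Fin 3 → HeightOneSpectrum (𝓞 K)) :
    (∀ f : (𝓞 K)[X], f.Monic → f.natDegree = n → FullReductions p n f → CubicAt v f →
      ∀ (L : Type) [Field L] [NumberField L] [Algebra K L] (d : ℕ)
        (t : AbsoluteGaloisGroup L →* Matrix (Fin d) (Fin d) ℤ_[2]), AllowedAt v t →
        AllMotives (fun _ : Unit => (f.map (algebraMap (𝓞 K) K)).map (algebraMap K L)) t) ∧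
    (Function.Injective p → (∀ i, v ≠ p i) → n ≤ Nat.card (𝓞 K ⧸ (p 2).asIdeal) →
      ∃ f₀ : (𝓞 K)[X], f₀.Monic ∧ f₀.natDegree = n ∧
        ∀ f : (𝓞 K)[X], f.Monic → f.natDegree = n →
          (∀ j, (f - f₀).coeff j ∈
            (p 0).asIdeal ⊓ (p 1).asIdeal ⊓ (p 2).asIdeal ⊓ v.asIdeal ^ 2) →
          FullReductions p n f ∧ CubicAt v f) := by
  refine ⟨fun f hm hd hp hv L _ _ _ d t hE m ν hν hgen => ?_, fun hp hv hc =>
    Pool.Agent.U442.Sel.exists_class v p hp hv (by omega) hc⟩
  obtain ⟨E, _, P, hE, hL, ht, hP, h3⟩ := hE
  obtain ⟨hsep, hfull⟩ := Pool.Agent.U442.Sel.full_of_reductions (by omega) hm hd hp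
  have hm' : (f.map (algebraMap (𝓞 K) K)).Monic := hm.map _
  have hd' : (f.map (algebraMap (𝓞 K) K)).natDegree = n := by rw [hm.natDegree_map, hd]
  have hx := Pool.Agent.U442.Sel.outside_of_cubic hv hm (F := AlgebraicClosure L) (E := E) hP h3
  refine Pool.Agent.U442.Htj.EP.everyPrime_of_gd _ (fun _ => ⟨hm'.map _, hsep.map, ?_,
    two_ne_zero⟩) ν hν (Pool.Agent.U442.Sel.gd_one hm' hsep (by omega) hfull hE hL t ht hx
      (Pool.Agent.U442.Htj.governed_of_generated (Pool.Agent.U442.Htj.EP.hasMatrices_toQ t) hgen))
  rw [natDegree_map, hd']
  exact ho

end Pool.Agent.Results.MP_09799c_ag.ExplicitCongruences
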