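import Pool.Agent.U442.Sel.Fin
import Pool.Agent.U442.Sel.Ex

/-!
# `ℓ`-Galois special points: the Jacobians of the curves `y ^ 2 = x ^ n - x - 1` and their products with
# arbitrary varieties

For odd `n ≥ 7` let `J n` be the Jacobian of the curve `y ^ 2 = x ^ n - x - 1` over `ℚ`, of dimension
`(n - 1) / 2`. The group `J n (F)`, for an algebraically closed field `F`, is the class group of the
ring `F[x, y]` of the affine curve (the curve has one point at infinity), and `V_2 (J n)` is its rational
2-adic Tate module. We consider finite sets of different odd numbers `n i ≥ 7` and the product `A` of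
the `J (n i)`.

Let `L` be a number field, and `t` any integral 2-adic representation of the absolute Galois group of
`L`, of any rank `d`, in the form of its matrices over the 2-adic integers; for instance the cohomology
`H^i(Z, ℤ_2)` (modulo torsion) of any smooth projective variety `Z` over `L`. Let `E` be a finite normal
extension of `ℚ` which contains `L` and over which `t` is trivial modulo two. (If `L = ℚ` one can take the
field of definition of the action modulo two; its degree divides the order of `GL_d (𝔽_2)`.)

**Theorem.** (1) If all `n i` are `Allowed`:

* `(n i)!` does not divide the degree of `E` (this is so if `(n i)! > [E : ℚ]`, so for all but finitely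
  many `n`, and for `L = ℚ` for all `n` with `n! > 2 ^ (d ^ 2)`), or
* some prime number `p` which divides `n ^ n - (n - 1) ^ (n - 1)`, `n = n i`, with an odd exponent is
  unramified in `E` (for instance, for `L = ℚ`, if `Z` has good reduction at `p`),

then the following is true for ALL pure motives `M` in the tensor category generated by `Z`
(`Generated`: obtained from the 2-adic realization of `Z` and characters with values in `ℤ_2ˣ` by tensor
products, direct sums, duals, subrepresentations and quotients; for instance all direct summands of the
cohomology of all powers `Z ^ b`) and at EVERY prime number `ℓ` (`EveryPrime`): all Tate classes on all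
powers `A ^ a` with values in the `ℓ`-adic realization of `M(c)` are zero in odd degrees, and in even
degrees they are linear combinations of products of Tate classes of degree two on `A ^ a` and
Tate classes of `M` (`ProductsWith`).

(2) For every odd `n ≥ 7` there is an odd prime number `p` with the property in the second case.

The meaning for the question. The endomorphism rings of the `J n` are `ℤ` and there are no homomorphisms
between them (Zarhin), so by the theorem of Faltings the Tate classes of degree two on the powers of `A`
are combinations of the polarization classes of the factors. Let `B` be ANY abelian variety over `L`. So by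
the theorem all Tate classes on all `A ^ a × B ^ b` are combinations of products of these classes and Tate
classes on `B ^ b`, and the connected `ℓ`-adic monodromy group `G` of `A × B` is the full product of
the groups `GSp` of the factors of `A` and the group of `B` (fibre product over the multiplier characters),
since reductive groups which contain the homotheties are determined by their invariants. It is also the
group of `A_x = J_1 ^ m_1 × ... × J_r ^ m_r × B ^ b`. Let `Y` be the family of the abelian varieties
`X_1 ^ m_1 × ... × X_r ^ m_r × B ^ b` with all principally polarized `X_i` of the dimension of `J_i`. It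
contains `x`, has positive dimension, and `G_{ℓ,Y}` contains `G_{ℓ,x}` and is contained in the same
fibre product. So `G_{ℓ,Y} = G_{ℓ,x}`, and `x` is not `ℓ`-Galois special, for every prime `ℓ`. NOTHING is
assumed about `B` besides `Allowed`: the Mumford-Tate conjecture is not assumed for `B`. (If it is true
for `B` then it follows for `A_x`; for abelian varieties this implication is also a theorem of
Commelin. The theorem below is true for all varieties `Z`, and for `B` without the Mumford-Tate
conjecture.) These translations are not formalized. For example for
`n = 7` the number `7 ^ 7 - 6 ^ 6 = 776887` is a prime number, so all `Z` over `ℚ` with good reduction at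
this prime number are allowed, and for `n = 9` all `Z` over `ℚ` with good reduction at one of the prime
numbers 7, 11, 13, 43, 79, 109.

What is new. The results of the starting library (`MP_640417_ag.HyperellipticEveryPrime` and others)
and of this run (`MP_c1bb77_ag.GoodReductionOutsideS`) are about 100% of all tuples of polynomials, and
for one tuple they assume that the Galois groups are large. Here is an explicit infinite family
of curves in every genus `≥ 3`. Proof: the Galois group of `x ^ n - x - 1` is the symmetric group (file
`W85.FB.GAL` of the library: its inertia groups are generated by transpositions); the discriminant is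
`± (n ^ n - (n - 1) ^ (n - 1))`, it is not `±` a square in the second case over `E` by ramification; a
normal subgroup of the Galois group which does not fix the roots contains all even permutations
of the roots, and by commutators this is so for all degrees `n i` independently.
-/

set_option autoImplicit false

namespace Pool.Agent.Results.MP_09799c_ag.ExplicitTrinomials

open Polynomial NumberField
open Pool.Agent.U442.Htj (Generated)
open Pool.Agent.U442.Htj.EP (AbsoluteGaloisGroup matRep EveryPrime)
open Pool.Agent.U442.Sel (UnramifiedAt)

/-- the matrices over `ℚ_2` -/
noncomputable def toQ {G : Type} [Group G] {d : ℕ} (t : G →* Matrix (Fin d) (Fin d) ℤ_[2]) :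
    G →* Matrix (Fin d) (Fin d) ℚ_[2] :=
  ((algebraMap ℤ_[2] ℚ_[2]).mapMatrix : Matrix (Fin d) (Fin d) ℤ_[2] →+* _).toMonoidHom.comp t

/-- The matrix of `s` is congruent to one modulo two. -/
def TrivialModTwo {G : Type} [Group G] {d : ℕ} (t : G →* Matrix (Fin d) (Fin d) ℤ_[2]) (s : G) :
    Prop :=
  (t s).map (PadicInt.toZMod (p := 2)) = 1

/-- **All motives in the tensor category generated by `Z`, at every prime number.** -/
def AllMotives {L : Type} [Field L] [NumberField L] {ι : Type} (f : ι → L[X]) {d : ℕ}
    (t : AbsoluteGaloisGroup L →* Matrix (Fin d) (Fin d) ℤ_[2]) : Prop :=
  ∀ (m : ℕ) (ν : AbsoluteGaloisGroup L →* Matrix (Fin m) (Fin m) ℚ_[2]), Continuous ν →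
    Generated (matRep (toQ t)) (Fin m → ℚ_[2]) (matRep ν) → EveryPrime f ν

/-- The number `n` is odd and at least seven, and `n!` does not divide the degree of `E`, or some prime
number which divides `n ^ n - (n - 1) ^ (n - 1)` with an odd exponent is unramified in `E`. -/
def Allowed (E : Type) [Field E] [NumberField E] (n : ℕ) : Prop :=
  7 ≤ n ∧ Odd n ∧ (¬ n.factorial ∣ Module.finrank ℚ E ∨
    ∃ p : ℕ, p.Prime ∧ Odd (padicValNat p (n ^ n - (n - 1) ^ (n - 1))) ∧ UnramifiedAt p E)

/-- **Tate classes on the products of the Jacobians of the curves `y ^ 2 = x ^ n - x - 1` with arbitrary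
varieties.** -/
theorem result :
    (∀ (L : Type) [Field L] [NumberField L] (E : IntermediateField ℚ (AlgebraicClosure L))
      [NumberField E], Normal ℚ E → (∀ x : L, algebraMap L (AlgebraicClosure L) x ∈ E) →
      ∀ (d : ℕ) (t : AbsoluteGaloisGroup L →* Matrix (Fin d) (Fin d) ℤ_[2]),
        (∀ s : AbsoluteGaloisGroup L, (∀ x ∈ E, s x = x) → TrivialModTwo t s) →
        ∀ (I : Type) [Fintype I] [Nonempty I] (n : I → ℕ), Function.Injective n →
          (∀ i, Allowed E (n i)) → AllMotives (fun i => (X ^ n i - X - 1 : L[X])) t) ∧
    ∀ n : ℕ, 7 ≤ n → Odd n → ∃ p : ℕ, p.Prime ∧ p ≠ 2 ∧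
      Odd (padicValNat p (n ^ n - (n - 1) ^ (n - 1))) := by
  refine ⟨?_, fun n h7 ho => Pool.Agent.U442.Sel.exists_prime h7 ho⟩
  intro L _ _ E _ hE hL d t ht I _ _ n hinj hall m ν hν hgen
  have hac : IsAlgClosure ℚ (AlgebraicClosure L) :=
    ⟨inferInstance, Algebra.IsAlgebraic.trans ℚ L (AlgebraicClosure L)⟩
  have hx : ∀ i, ∃ x : Pool.Agent.U442.Sel.RT (n i) (AlgebraicClosure L),
      (x : AlgebraicClosure L) ∉ E := by
    intro i
    obtain ⟨h7, ho, h | ⟨p, hp, h1, h2⟩⟩ := hall i
    · exact Pool.Agent.U442.Sel.outside_of_degree (by omega) h
    · exact Pool.Agent.U442.Sel.outside_of_prime (by omega) ho hp h2 h1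
  exact Pool.Agent.U442.Htj.EP.everyPrime_of_gd _
    (fun i => Pool.Agent.U442.Sel.hypP (hall i).1 (hall i).2.1) ν hν
    (Pool.Agent.U442.Sel.gd hE hL t ht n hinj (fun i => (hall i).1) hx
      (Pool.Agent.U442.Htj.governed_of_generated (Pool.Agent.U442.Htj.EP.hasMatrices_toQ t) hgen))

end Pool.Agent.Results.MP_09799c_ag.ExplicitTrinomials
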