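import Mathlib
import Pool.Agent.U980.GS.Final

/-!
# One Tate class of codimension two on `A_x ^ 4` decides whether the point `x` is `ℓ`-Galois special

Let `x` be a point of `𝒜_g`, defined over the finitely generated field `k ⊂ ℂ`, let
`A_x(ℂ) = ℝ ^ n / ℤ ^ n` be the abelian variety, with the complex structure `J` and the Riemann form
`E` of the polarization (`RiemannData`), and let `ρ_x` be the representation of the Galois group of
`k` on `V = ℚ_ℓ ^ n`, with the cyclotomic character `χ_x`. The Weil pairing, the theorems of Faltings
and the fact that the endomorphisms of `A_x` are defined over a finite extension are the hypothesis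
`IsPoint`.

Let `Y ∋ x` be an irreducible subvariety of `𝒜_g` defined over `k` (or a normal variety over it).
Its arithmetic fundamental group `G` acts on `V` by `ρ`, with the cyclotomic character `χ`; the point
gives a section `s : Gal(k) → G` with `ρ ∘ s = ρ_x`; the geometric fundamental group `N` is a normal
subgroup, `G = N · s(Gal(k))`, and the image `D` of the topological fundamental group is dense in `N`
and acts by integral matrices. The representation of `G` is semisimple (Faltings), and by Deligne the
connected monodromy group is semisimple, so that the Lie algebra of `G_{ℓ,Y}` is the sum of the Lie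
algebra of `G_{ℓ,x}` and of its derived algebra. These facts are the hypothesis `IsFamilyThrough`.

`InGal ρ` is the Lie algebra of the (reductive) group `G_ℓ`: the endomorphisms of `V` which kill all
tensors fixed by a subgroup of finite index. A form `c` of degree `4` on `V` is a class in
`H ^ 1 (A_x, ℚ_ℓ) ^ (⊗ 4)`, a Künneth component of `H ^ 4 (A_x ^ 4, ℚ_ℓ)`, and it is a Tate class of
codimension two (`IsTate`) if a subgroup of finite index fixes it in `H ^ 4 (A_x ^ 4, ℚ_ℓ(2))`. It is a
Tate class of the family if it is a Tate class for `ρ`, `χ`.

**Theorem.** There is *one* Tate class `c` of codimension two on `A_x ^ 4`, which depends only on `x`,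
such that for all families `Y` through `x`: the class `c` extends to a Tate class of the family if and
only if `G_{ℓ,Y}` and `G_{ℓ,x}` have the same Lie algebra, i.e. `G_{ℓ,Y} = G_{ℓ,x}` (both are
connected).

So a point `x` is `ℓ`-Galois special if and only if this single class extends to no family of
positive dimension through `x`; and if it extends, all Tate classes on all powers extend.

**The proof.** The class is given by the projection `P` of `End V` onto the Lie algebra `𝔤_x`,
orthogonal for the trace form. If it extends, then `P` commutes with the Lie algebra `𝔤_Y`, and so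
`X - P X` commutes with `𝔤_x` for all `X` in `𝔤_Y`: it is a combination of endomorphisms of `A_x`, by
Faltings. A subgroup of finite index of `D` permutes the integral endomorphisms of `A_x` of given
length for the Rosati form, of which there are finitely many. So all endomorphisms of `A_x` are
endomorphisms of the family, and `X ↦ X - P X` vanishes on the brackets in `𝔤_Y`. By Deligne's
theorem `𝔤_Y = 𝔤_x`.
-/

set_option autoImplicit false

namespace Pool.Agent.Results.MP_09799c_ag.OneTateClass

open Pool.Agent.U980.MF Pool.Agent.U980.GS

theorem result {n : ℕ} (A : RiemannData n) (ℓ : ℕ) [Fact ℓ.Prime]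
    {Γ : Type} [Group Γ] [TopologicalSpace Γ] [IsTopologicalGroup Γ] [CompactSpace Γ]
    (ρx : Representation ℚ_[ℓ] Γ (Fin n → ℚ_[ℓ])) (χx : Γ →* ℚ_[ℓ]) (hx : IsPoint A ρx χx) :
    ∃ c : Form ℚ_[ℓ] (Fin n → ℚ_[ℓ]) 2, IsTate ρx χx c ∧
      ∀ (G : Type) [Group G] [TopologicalSpace G] [IsTopologicalGroup G] [CompactSpace G]
        (ρ : Representation ℚ_[ℓ] G (Fin n → ℚ_[ℓ])) (χ : G →* ℚ_[ℓ]) (N D : Subgroup G),
        IsFamilyThrough A ρx χx ρ χ N D →
        (IsTate ρ χ c ↔ ∀ X, InGal ρ X ↔ InGal ρx X) :=
  one_class hx

end Pool.Agent.Results.MP_09799c_ag.OneTateClass
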