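import Mathlib
import Pool.Agent.U175.LP.V8
import Pool.Agent.U175.LP.V9

/-!
# Points of `𝒜_g` which are not `ℓ`-Galois special for any `ℓ`, from the image modulo one prime

Let `x` be a rational point of `𝒜_g` and `Y` a closed irreducible subvariety which contains `x`, both
over `ℚ`. We use the following notations.

* `Γ` is the fundamental group of a (smooth) open part of (a covering of) `Y` over which the abelian variety
  is defined, `s` the homomorphism from the Galois group of `ℚ` to `Γ` given by `x` (if `x` is in the
  boundary of the open part, one takes the fundamental group of a normal model; `s` exists if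
  `x` lifts to a rational point of it, and `Γ` may be any profinite group acting on the Tate module of the
  generic abelian variety `A_Y`, through which the Galois group of `A_x` acts).
* `ρ ℓ` is the representation of `Γ` on `H^1(A_Y)`, with coefficients in `ℚ_ℓ`; its composition with
  `s` is `H^1(A_x)`; `P v` are the Frobenius polynomials of `A_x` at the places outside of the finite set `S`.
* `𝔤` is the Lie algebra of the Mumford-Tate group `G_Y` (its tensors are Tate tensors by Deligne), and
  `r` is its rank.
* `faltings` is the theorem of Faltings for `A_Y`: Tate endomorphisms are combinations of endomorphisms.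

**Theorem.** Suppose that for ONE prime number `p` the image of Galois modulo `p`, with respect to
any stable lattice of the `p`-adic Tate module of `A_x`, has one of the following properties.

(A) `p` is odd, and over some extension of `ℤ / p` the space generated by `𝔫` contains a torus of
dimension `r`, where the residual Lie algebra `𝔫` of `A_x` is the Lie algebra of matrices modulo `p`
generated by the logarithms of the elements `u` of the image with `(u - 1) ^ ((p - 1) / 2) = 0`, and by the
reductions modulo `p` of the integral matrices of the form `(R g - 1) / p ^ (k + 1)`.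

(B) There is an element of the image with `r` eigenvalues in some extension of `ℤ / p` which satisfy no
relation `∏ x_j ^ e_j = 1` with `|e_j| ≤ B` except for `e = 0`, where `B` depends only on `g` and `r`
(one number `B` for all rational points of `𝒜_g` and all `p`).

Then for EVERY prime number `ℓ`

1. the Mumford-Tate conjecture holds for `A_Y`: `G_{ℓ,Y} = G_Y ⊗ ℚ_ℓ`;
2. `G_{ℓ,x} = G_{ℓ,Y}` (the Tate tensors of `A_x` are the Tate tensors of `A_Y`) if and only if
   `𝔤` commutes with all Tate endomorphisms of `A_x`, that is, by the theorem of Faltings for `A_x`, if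
   and only if the endomorphisms of `A_x` extend to `A_Y`, a condition independent of `ℓ`.

In particular, **`x` is not `ℓ`-Galois special for any `ℓ`** if there is a special (or any) subvariety `Y` of
positive dimension through `x` with `End(A_Y) = End(A_x)`, such that for one `p` the image of Galois in
`GL(A_x[p])` contains an element whose eigenvalues have no relations of bounded size other than those in
the Mumford-Tate group of `Y`, or the residual Lie algebra of `A_x` contains a torus of the dimension of a
maximal torus of `G_Y`. With `Y` the smallest special subvariety through `x` (then `G_Y = G_x` and the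
endomorphisms are the same): if `x` is a rational point which is `ℓ`-Galois special for one `ℓ` and not a
CM point, then for ALL prime numbers `p` every element of the image modulo `p` has a relation of
bounded size between any `r` of its eigenvalues, and for all odd `p` the tori in the residual Lie algebra of
`A_x` have smaller dimension than the maximal tori of the Mumford-Tate group of `A_x`. The only thing which
is assumed about `x` is one matrix modulo `p`, or the dimension of a torus in a Lie algebra over a
finite field, for one `p`; `p` may be a prime of bad reduction, small compared to `g`, and the group `G_x`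
may be any group, ramified at `p`.

Proof. (A) The eigenvalues of a generic combination (with coefficients in `ℤ_p` algebraically
independent over the coefficients) of tangent vectors which lift a basis of `𝔫` specialize to the
eigenvalues of the generic element of the torus; so `r` of them are linearly independent over `ℚ`. A
multiple of this tangent vector is the logarithm of a Galois element, by successive approximation in the
compact image (library `Pool.Agent.U175.LP.V1` - `V8`). So a Galois element of `A_x` has `r`
multiplicatively independent eigenvalues, and then there are many Frobenius elements with this property.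
(B) The element is the reduction of a Frobenius element, whose eigenvalues lift those modulo `p`; if
there was a relation between the lifts, there would be one of bounded size (`V9`). The theorem on
ranks and endomorphisms (`Pool.Agent.N203.RE`, helper203; `Pool.Agent.R931.IR`) is applied to `A_Y`,
where it gives 1, and to `A_x` with the Lie algebra of `G_Y`, where it gives 2.
-/

set_option autoImplicit false

namespace Pool.Agent.Results.MP_09799c_ag.ResidualPoints

open NumberField IsDedekindDomain Module Matrix Polynomial Pool.Agent.Y114.RM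
  Pool.Agent.Y114.TF Pool.Agent.R931.IR Pool.Agent.N203.RE

/-- The absolute Galois group of `ℚ`. -/
abbrev GalQ : Type := Gal(AlgebraicClosure ℚ/ℚ)

section residual

variable {p N : ℕ} [Fact p.Prime] {G : Type} [Group G]

/-- The logarithm of a unipotent matrix modulo `p`: the sum of `(-1) ^ (j + 1) (u - 1) ^ j / j` for
`1 ≤ j < p`. -/
def unipotentLog (u : Matrix (Fin N) (Fin N) (ZMod p)) : Matrix (Fin N) (Fin N) (ZMod p) :=
  ∑ j ∈ Finset.Ico 1 p, ((-1) ^ (j + 1) * ((j : ℕ) : ZMod p)⁻¹) • (u - 1) ^ j

/-- The generators of the residual Lie algebra: the logarithms of the elements `u` of the image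
modulo `p` with `(u - 1) ^ ((p - 1) / 2) = 0`, and the reductions of the integral matrices
`(R g - 1) / p ^ (k + 1)`. -/
def generators (R : G →* Matrix (Fin N) (Fin N) ℤ_[p]) : Set (Matrix (Fin N) (Fin N) (ZMod p)) :=
  {X | (∃ g, ((R g).map PadicInt.toZMod - 1) ^ ((p - 1) / 2) = 0 ∧
      X = unipotentLog ((R g).map PadicInt.toZMod)) ∨
    ∃ g k Y, R g = 1 + (p : ℤ_[p]) ^ (k + 1) • Y ∧ X = Y.map PadicInt.toZMod}

/-- The residual Lie algebra: the smallest space of matrices modulo `p` which contains the
generators and is closed under commutators. -/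
def residualLieAlgebra (R : G →* Matrix (Fin N) (Fin N) ℤ_[p]) :
    Submodule (ZMod p) (Matrix (Fin N) (Fin N) (ZMod p)) :=
  sInf {L | generators R ⊆ (L : Set (Matrix (Fin N) (Fin N) (ZMod p))) ∧
    ∀ X ∈ L, ∀ Y ∈ L, X * Y - Y * X ∈ L}

/-- `L` contains, over some extension field `k` of `ℤ / p`, a torus of dimension `r`: the space
generated by `L` contains `r` linearly independent matrices which can be diagonalized
simultaneously. -/
def HasTorus (L : Submodule (ZMod p) (Matrix (Fin N) (Fin N) (ZMod p))) (r : ℕ) : Prop :=
  ∃ (k : Type) (_ : Field k) (_ : Algebra (ZMod p) k) (T T' : Matrix (Fin N) (Fin N) k)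
    (d : Fin r → Fin N → k), T * T' = 1 ∧ LinearIndependent k d ∧
    ∀ j, T * diagonal (d j) * T' ∈ Submodule.span k
      ((fun X : Matrix (Fin N) (Fin N) (ZMod p) => X.map (algebraMap (ZMod p) k)) '' L)

/-- `A` has `r` eigenvalues `x j` in some extension field of `ℤ / p` with no relation
`∏ x j ^ e j = 1`, `|e j| ≤ B`, except for `e = 0`. -/
def HasFreeEigenvalues (A : Matrix (Fin N) (Fin N) (ZMod p)) (r B : ℕ) : Prop :=
  ∃ (k : Type) (_ : Field k) (_ : Algebra (ZMod p) k) (x : Fin r → k),
    (∀ j, aeval (x j) A.charpoly = 0) ∧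
      ∀ e : Fin r → ℤ, (∀ j, |e j| ≤ B) → ∏ j, x j ^ e j = 1 → e = 0

/-- `R g` are the matrices of the operators `f (s g)` in a basis. -/
def HasMatrices {V Γ : Type} [AddCommGroup V] [Module ℚ_[p] V] [Group Γ]
    (f : Representation ℚ_[p] Γ V) (s : G →* Γ) (R : G →* Matrix (Fin N) (Fin N) ℤ_[p]) : Prop :=
  ∃ b : Basis (Fin N) ℚ_[p] V, ∀ g,
    LinearMap.toMatrix b b (f (s g)) = (R g).map (algebraMap ℤ_[p] ℚ_[p])

end residual

variable {Γ : Type} [Group Γ] [TopologicalSpace Γ] {ι : Type} [Fintype ι] [DecidableEq ι]
  {n : ι → ℕ}

/-- `R g` are the matrices of the elements `g` of the Galois group of `ℚ`, acting at the point `s`, in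
a basis of a stable lattice of the `p`-adic realization. -/
def IsLatticeAction {p N : ℕ} [Fact p.Prime] (s : GalQ →* Γ) (ρ : Reps Γ n p)
    (R : GalQ →* Matrix (Fin N) (Fin N) ℤ_[p]) : Prop :=
  HasMatrices (sumRep ρ) s R

/-- The families of abelian varieties with the Lie algebra `𝔤` of the Mumford-Tate group: the
realizations are of weight one, the Frobenius eigenvalues are algebraic integers, and Tate
endomorphisms of the generic member commute with `𝔤` (they are combinations of
endomorphisms, by the theorem of Faltings). -/
structure IsAbelianFamily (s : GalQ →* Γ) (S : Set (HeightOneSpectrum (𝓞 ℚ)))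
    (P : HeightOneSpectrum (𝓞 ℚ) → ι → ℚ[X]) (ρ : ∀ (ℓ : ℕ) [Fact ℓ.Prime], Reps Γ n ℓ)
    (𝔤 : Submodule ℚ (End ℚ (Betti n))) : Prop where
  realizations : Realizations s (fun _ => 1) S P ρ 𝔤
  integral : IntegralOutside S P 0
  faltings : ∀ (ℓ : ℕ) [Fact ℓ.Prime], TateEndomorphisms (ρ ℓ) 𝔤

/-- The Mumford-Tate conjecture at `ℓ`: the Tate tensors are the tensors killed by `𝔤 ⊗ ℚ_ℓ`, and
`𝔤 ⊗ ℚ_ℓ` consists of all endomorphisms which kill all Tate tensors. -/
def MumfordTate {ℓ : ℕ} [Fact ℓ.Prime] (ρ : Reps Γ n ℓ) (𝔤 : Submodule ℚ (End ℚ (Betti n))) :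
    Prop :=
  TateMotivated ρ 𝔤 ∧ KillsTateTensors ρ (scalars ℓ 𝔤)

/-- The Tate tensors of the point `x` are the Tate tensors of the family: `G_{ℓ,x} = G_{ℓ,Y}`. -/
def SameTateTensors {ℓ : ℕ} [Fact ℓ.Prime] (s : GalQ →* Γ) (ρ : Reps Γ n ℓ) : Prop :=
  ∀ (m : ℕ) (φ : Tensor ℚ_[ℓ] (∀ i, Fin (n i) → ℚ_[ℓ]) m),
    TateTensor (sumRep (restrictTo ρ s)) φ ↔ TateTensor (sumRep ρ) φ

/-- **Points of `𝒜_g` which are not `ℓ`-Galois special.** -/
theorem result (n : ι → ℕ) (r : ℕ) : ∃ B : ℕ,
    ∀ (Γ : Type) [Group Γ] [TopologicalSpace Γ] [IsTopologicalGroup Γ] [CompactSpace Γ]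
    -- the point `x`, the subvariety `Y`, the Mumford-Tate group of `Y`, of rank at most `r`
    (s : GalQ →* Γ) (S : Set (HeightOneSpectrum (𝓞 ℚ)))
    (P : HeightOneSpectrum (𝓞 ℚ) → ι → ℚ[X]) (ρ : ∀ (ℓ : ℕ) [Fact ℓ.Prime], Reps Γ n ℓ)
    (𝔤 : Submodule ℚ (End ℚ (Betti n))), IsAbelianFamily s S P ρ 𝔤 → RatRankLE 𝔤 r →
    -- the image of Galois modulo one prime number, for the abelian variety `A_x`
    ∀ (p : ℕ) [Fact p.Prime] (N : ℕ) (R : GalQ →* Matrix (Fin N) (Fin N) ℤ_[p]),
    IsLatticeAction s (ρ p) R →
    ((3 ≤ p ∧ HasTorus (residualLieAlgebra R) r) ∨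
      ∃ σ, HasFreeEigenvalues ((R σ).map PadicInt.toZMod) r B) →
    -- every prime number
    ∀ (ℓ : ℕ) [Fact ℓ.Prime], MumfordTate (ρ ℓ) 𝔤 ∧
      (SameTateTensors s (ρ ℓ) ↔ TateEndomorphisms (restrictTo (ρ ℓ) s) 𝔤) := by
  obtain ⟨B, hB⟩ := Pool.Agent.U175.LP.exists_exp_bound n (fun _ => 1) 0 r
  refine ⟨B, fun Γ _ _ _ _ s S P ρ 𝔤 h hr p _ N R hR hmod ℓ _ => ?_⟩
  have hre := h.realizations
  obtain ⟨b, hb⟩ := hR
  have hmain : RankTheorem (ρ ℓ) 𝔤 r ∧ RankTheorem (restrictTo (ρ ℓ) s) 𝔤 r := by
    rcases hmod with ⟨hp, htorus⟩ | hσ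
    · have hσ : ∃ σ, IndependentEigenvalues (ρ p) (s σ) r :=
        Pool.Agent.U175.LP.independent_of_torus hre.continuous_point (hre.continuous p) b hb hp
          (S := generators R) (fun X hX => hX) htorus
      exact ⟨main_element hre 0 h.integral r hr p hσ ℓ,
        Pool.Agent.U175.LP.rank_fibre hre 0 h.integral r hr p hσ ℓ⟩
    · have hc := Pool.Agent.U175.LP.compact_gal ℚ
      exact ⟨Pool.Agent.U175.LP.rank_of_mod hre h.integral hr b hb hB hσ ℓ,
        Pool.Agent.U175.LP.rank_of_mod (Pool.Agent.U175.LP.fibre hre) h.integral hr b hb hB hσ ℓ⟩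
  obtain ⟨h1, h2⟩ := hmain
  have hT := h1.tate.2 (h.faltings ℓ)
  refine ⟨⟨hT, fun X => ⟨fun hX m φ hφ => (hT m φ).1 hφ X hX, fun hX => ?_⟩⟩, fun hS => ?_,
    fun hE => ?_⟩
  · exact (hre.motivic ℓ).algebraic X fun m φ hφ => hX m φ ((hT m φ).2 hφ)
  · exact h2.tate.1 fun m φ => (hS m φ).trans (hT m φ)
  · have h3 := h2.tate.2 hE
    exact fun m φ => (h3 m φ).trans (hT m φ).symm

end Pool.Agent.Results.MP_09799c_ag.ResidualPoints
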